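import Mathlib

/-!
# Finiteness of `d(S, R)` does not bound the relative Davenport constants of `S / H`

The counterexample is `S = {finite sets of naturals, union} × {0, 1, 2}`, where the second
factor has the truncated addition `min (2, k + l)`.
-/

namespace Pool.Agent.Results.MP_6ad575_co.UnboundedDavenport

open scoped Classical

section Defs

variable (S : Type*) [AddCommMonoid S]

/-- The cyclic subsemigroup `⟨x⟩ = {m x : m ≥ 1}`. -/
def cyc {S : Type*} [AddCommMonoid S] (x : S) : Set S := Set.range fun n : ℕ => (n + 1) • x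

/-- `S` is periodic: every cyclic subsemigroup is finite. -/
def Periodic : Prop := ∀ x : S, (cyc x).Finite

/-- `e(x)`: the idempotent `m x`, `m ≥ 1`, of the cyclic subsemigroup of `x` (with the least such
`m`; in a periodic semigroup it exists and is unique). -/
noncomputable def idem {S : Type*} [AddCommMonoid S] (x : S) : S :=
  if h : ∃ n : ℕ, (n + 1) • x + (n + 1) • x = (n + 1) • x then (Nat.find h + 1) • x else x

/-- The cyclic subsemigroup of `a` is a group. -/
def CycIsGroup {S : Type*} [AddCommMonoid S] (a : S) : Prop :=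
  ∃ e ∈ cyc a, ∀ x ∈ cyc a, e + x = x ∧ ∃ y ∈ cyc a, x + y = e

/-- `d(S, R)`: the supremum of all `ℓ` for which some sequence `s₁, …, s_ℓ` in `S` satisfies
`∏ (X^{s_i} - a_i X^{e(s_i)}) ≠ 0` in `R[X; S]` for all nonzero `a₁, …, a_ℓ` in `R`. -/
noncomputable def dSR (R : Type*) [CommRing R] : ℕ∞ :=
  ⨆ ℓ ∈ {ℓ : ℕ | ∃ s : Fin ℓ → S, ∀ a : Fin ℓ → R, (∀ i, a i ≠ 0) →
    ∏ i, (AddMonoidAlgebra.single (s i) (1 : R) - AddMonoidAlgebra.single (idem (s i)) (a i)) ≠ 0},
    (ℓ : ℕ∞)

/-- `a ≼ b`: `a = b` or `a = b + c` for some `c`. -/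
def Below {S : Type*} [AddCommMonoid S] (a b : S) : Prop := a = b ∨ ∃ c, a = b + c

/-- The congruence `H` on `S`: `a ≼ b` and `b ≼ a`. -/
def HCon : AddCon S where
  r a b := Below a b ∧ Below b a
  iseqv := by
    have htrans : ∀ a b c : S, Below a b → Below b c → Below a c := by
      rintro a b c (rfl | ⟨x, rfl⟩) (rfl | ⟨y, rfl⟩)
      · exact Or.inl rfl
      · exact Or.inr ⟨y, rfl⟩
      · exact Or.inr ⟨x, rfl⟩
      · exact Or.inr ⟨y + x, by rw [add_assoc]⟩
    exact ⟨fun a => ⟨Or.inl rfl, Or.inl rfl⟩, fun h => ⟨h.2, h.1⟩,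
      fun h h' => ⟨htrans _ _ _ h.1 h'.1, htrans _ _ _ h'.2 h.2⟩⟩
  add' := by
    have key : ∀ a b c d : S, Below a b → Below c d → Below (a + c) (b + d) := by
      rintro a b c d (rfl | ⟨x, rfl⟩) (rfl | ⟨y, rfl⟩)
      · exact Or.inl rfl
      · exact Or.inr ⟨y, by abel⟩
      · exact Or.inr ⟨x, by abel⟩
      · exact Or.inr ⟨x + y, by abel⟩
    intro a b c d h h'
    exact ⟨key _ _ _ _ h.1 h'.1, key _ _ _ _ h.2 h'.2⟩

/-- A sequence (finite multiset) over `T` is irreducible if no proper subsequence (the empty one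
included) has the same sum. -/
def Irred {T : Type*} [AddCommMonoid T] (s : Multiset T) : Prop :=
  ∀ t : Multiset T, t < s → t.sum ≠ s.sum

/-- `D_b(T)`: the largest length of an irreducible sequence over `T` with sum `b`. -/
noncomputable def Dav {T : Type*} [AddCommMonoid T] (b : T) : ℕ∞ :=
  ⨆ s ∈ {s : Multiset T | s.sum = b ∧ Irred s}, (Multiset.card s : ℕ∞)

end Defs

/-- The carrier of the example. -/
@[ext] structure El where
  /-- the finite set -/
  fst : Finset ℕ
  /-- the level -/
  lvl : Fin 3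

/-- The truncated addition on levels. -/
def ladd (k l : Fin 3) : Fin 3 := if k = 0 then l else if l = 0 then k else 2

lemma ladd_assoc : ∀ a b c : Fin 3, ladd (ladd a b) c = ladd a (ladd b c) := by decide
lemma ladd_comm : ∀ a b : Fin 3, ladd a b = ladd b a := by decide
lemma ladd_zero : ∀ a : Fin 3, ladd a 0 = a := by decide
lemma zero_ladd : ∀ a : Fin 3, ladd 0 a = a := by decide

instance : Add El := ⟨fun a b => ⟨a.fst ∪ b.fst, ladd a.lvl b.lvl⟩⟩

instance : Zero El := ⟨⟨∅, 0⟩⟩

instance : AddCommMonoid El where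
  add_assoc a b c := by
    apply El.ext
    · exact Finset.union_assoc _ _ _
    · exact ladd_assoc _ _ _
  zero_add a := by
    apply El.ext
    · exact Finset.empty_union _
    · exact zero_ladd _
  add_zero a := by
    apply El.ext
    · exact Finset.union_empty _
    · exact ladd_zero _
  add_comm a b := by
    apply El.ext
    · exact Finset.union_comm _ _
    · exact ladd_comm _ _
  nsmul := nsmulRec

lemma add_fst (a b : El) : (a + b).fst = a.fst ∪ b.fst := rfl
lemma add_lvl (a b : El) : (a + b).lvl = ladd a.lvl b.lvl := rfl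
lemma zero_fst : (0 : El).fst = ∅ := rfl
lemma zero_lvl : (0 : El).lvl = 0 := rfl

lemma two_smul_idem (a : El) : 2 • a + 2 • a = 2 • a := by
  apply El.ext
  · simp [two_nsmul, add_fst]
  · rw [two_nsmul, add_lvl, add_lvl]
    generalize a.lvl = k
    revert k; decide

lemma three_smul (a : El) : 3 • a = 2 • a := by
  rw [show (3 : ℕ) = 2 + 1 from rfl, add_nsmul, one_nsmul, two_nsmul]
  apply El.ext
  · simp [add_fst]
  · rw [add_lvl, add_lvl]
    generalize a.lvl = k
    revert k; decide

lemma smul_eq (a : El) (n : ℕ) : (n + 2) • a = 2 • a := by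
  induction n with
  | zero => rfl
  | succ n ih =>
    have h3 := three_smul a
    rw [show (3 : ℕ) = 2 + 1 from rfl, add_nsmul, one_nsmul] at h3
    rw [show n + 1 + 2 = (n + 2) + 1 from rfl, add_nsmul, ih, one_nsmul, h3]

lemma periodic : Periodic El := by
  intro x
  refine (Set.toFinite {x, 2 • x}).subset ?_
  rintro _ ⟨n, rfl⟩
  rcases n with _ | n
  · simp
  · right
    exact smul_eq x n

lemma idem_of_idem (a : El) (h : a + a = a) : idem a = a := by
  have hex : ∃ n : ℕ, (n + 1) • a + (n + 1) • a = (n + 1) • a := ⟨0, by simpa using h⟩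
  have h0 : Nat.find hex = 0 := by
    rw [Nat.find_eq_zero]; simpa using h
  unfold idem
  rw [dif_pos hex, h0]; simp

lemma idem_of_not (a : El) (h : a + a ≠ a) : idem a = 2 • a := by
  have hex : ∃ n : ℕ, (n + 1) • a + (n + 1) • a = (n + 1) • a := ⟨1, two_smul_idem a⟩
  have h1 : Nat.find hex = 1 := by
    rw [Nat.find_eq_iff]
    refine ⟨two_smul_idem a, ?_⟩
    intro n hn
    have : n = 0 := by omega
    subst this
    simpa using h
  unfold idem
  rw [dif_pos hex, h1]

lemma idem_iff (a : El) : a + a = a ↔ a.lvl ≠ 1 := by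
  constructor
  · intro h h1
    have := congrArg El.lvl h
    rw [add_lvl, h1] at this
    revert this; decide
  · intro h
    apply El.ext
    · simp [add_fst]
    · rw [add_lvl]
      revert h
      generalize a.lvl = k
      revert k; decide

lemma prod_zero (R : Type*) [CommRing R] (a b : El) (ha : a.lvl = 1) (hb : b.lvl = 1) :
    (AddMonoidAlgebra.single a (1 : R) - AddMonoidAlgebra.single (idem a) (1 : R)) *
      (AddMonoidAlgebra.single b (1 : R) - AddMonoidAlgebra.single (idem b) (1 : R)) = 0 := by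
  have hia : idem a = 2 • a := idem_of_not a (fun h => (idem_iff a).1 h ha)
  have hib : idem b = 2 • b := idem_of_not b (fun h => (idem_iff b).1 h hb)
  rw [hia, hib]
  have h1 : a + 2 • b = a + b := by
    apply El.ext
    · simp [two_nsmul, add_fst]
    · simp only [two_nsmul, add_lvl, ha, hb]; decide
  have h2 : 2 • a + b = a + b := by
    apply El.ext
    · simp [two_nsmul, add_fst]
    · simp only [two_nsmul, add_lvl, ha, hb]; decide
  have h3 : 2 • a + 2 • b = a + b := by
    apply El.ext
    · simp [two_nsmul, add_fst]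
    · simp only [two_nsmul, add_lvl, ha, hb]; decide
  rw [sub_mul, mul_sub, mul_sub, AddMonoidAlgebra.single_mul_single,
    AddMonoidAlgebra.single_mul_single, AddMonoidAlgebra.single_mul_single,
    AddMonoidAlgebra.single_mul_single, h1, h2, h3]
  simp

lemma dSR_eq (R : Type*) [CommRing R] [Nontrivial R] : dSR El R = 1 := by
  apply le_antisymm
  · apply iSup₂_le
    rintro ℓ ⟨s, hs⟩
    by_contra hlt
    have hl : 2 ≤ ℓ := by
      have : (1 : ℕ∞) < ℓ := not_le.1 hlt
      exact_mod_cast this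
    refine hs (fun _ => 1) (fun _ => one_ne_zero) ?_
    by_cases hall : ∃ i, (s i).lvl ≠ 1
    · obtain ⟨i, hi⟩ := hall
      refine Finset.prod_eq_zero (Finset.mem_univ i) ?_
      rw [idem_of_idem (s i) ((idem_iff _).2 hi), sub_self]
    · push Not at hall
      have hne : (⟨0, by omega⟩ : Fin ℓ) ≠ ⟨1, by omega⟩ := by
        intro h
        have := congrArg Fin.val h
        simp at this
      rw [← Finset.mul_prod_erase Finset.univ _ (Finset.mem_univ (⟨0, by omega⟩ : Fin ℓ)),
        ← Finset.mul_prod_erase (Finset.univ.erase (⟨0, by omega⟩ : Fin ℓ)) _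
          (Finset.mem_erase.2 ⟨hne.symm, Finset.mem_univ (⟨1, by omega⟩ : Fin ℓ)⟩), ← mul_assoc,
        prod_zero R _ _ (hall _) (hall _), zero_mul]
  · have hmem : (1 : ℕ) ∈ {ℓ : ℕ | ∃ s : Fin ℓ → El, ∀ a : Fin ℓ → R, (∀ i, a i ≠ 0) →
        ∏ i, (AddMonoidAlgebra.single (s i) (1 : R) -
          AddMonoidAlgebra.single (idem (s i)) (a i)) ≠ 0} := by
      refine ⟨fun _ => ⟨∅, 1⟩, ?_⟩
      intro a _
      rw [Fin.prod_univ_one]
      intro h0
      have hne : idem (⟨∅, 1⟩ : El) ≠ ⟨∅, 1⟩ := by
        rw [idem_of_not _ (fun h => (idem_iff _).1 h rfl)]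
        intro h
        have := congrArg El.lvl h
        rw [two_nsmul, add_lvl] at this
        revert this; decide
      have h1 := congrArg (fun f : AddMonoidAlgebra R El => f.coeff ⟨∅, 1⟩) h0
      have h2 : (AddMonoidAlgebra.single (⟨∅, 1⟩ : El) (1 : R) -
          AddMonoidAlgebra.single (idem (⟨∅, 1⟩ : El)) (a 0)).coeff ⟨∅, 1⟩ = 1 := by
        simp [Finsupp.single_apply, hne]
      have h3 : (1 : R) = 0 := by
        rw [← h2]
        exact h1
      exact one_ne_zero h3
    exact le_iSup₂_of_le (f := fun (ℓ : ℕ) (_ : ℓ ∈ {ℓ : ℕ | ∃ s : Fin ℓ → El,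
      ∀ a : Fin ℓ → R, (∀ i, a i ≠ 0) → ∏ i, (AddMonoidAlgebra.single (s i) (1 : R) -
          AddMonoidAlgebra.single (idem (s i)) (a i)) ≠ 0}) => (ℓ : ℕ∞)) 1 hmem le_rfl

lemma lvl_mono : ∀ a b c d : Fin 3, a = ladd b c → b = ladd a d → a = b := by decide

lemma H_eq (a b : El) (h : HCon El a b) : a = b := by
  have h' : Below a b ∧ Below b a := h
  obtain ⟨h1, h2⟩ := h'
  rcases h1 with h1 | ⟨c, h1⟩
  · exact h1
  rcases h2 with h2 | ⟨d, h2⟩
  · exact h2.symm
  apply El.ext
  · apply Finset.Subset.antisymm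
    · rw [h2, add_fst]; exact Finset.subset_union_left
    · rw [h1, add_fst]; exact Finset.subset_union_left
  · exact lvl_mono _ _ c.lvl d.lvl (by rw [← add_lvl, ← h1]) (by rw [← add_lvl, ← h2])

/-- The identity, as a map from the quotient. -/
noncomputable def iota : (HCon El).Quotient →+ El :=
  AddCon.lift (HCon El) (AddMonoidHom.id El) (fun a b h => H_eq a b h)

lemma iota_mk (a : El) : iota ((HCon El).mk' a) = a := rfl

lemma sum_fst (t : Multiset El) (i : ℕ) : i ∈ t.sum.fst ↔ ∃ y ∈ t, i ∈ y.fst := by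
  induction t using Multiset.induction with
  | empty => simp [zero_fst]
  | cons a t ih => rw [Multiset.sum_cons, add_fst, Finset.mem_union, ih]; simp

lemma sum_lvl (t : Multiset El) (h : ∀ y ∈ t, y.lvl = 0) : t.sum.lvl = 0 := by
  induction t using Multiset.induction with
  | empty => rfl
  | cons a t ih =>
    rw [Multiset.sum_cons, add_lvl, h a (by simp), ih (fun y hy => h y (by simp [hy]))]
    decide

/-- The irreducible sequence of length `N + 1`. -/
def seq (N : ℕ) : Multiset El :=
  (⟨∅, 1⟩ : El) ::ₘ (Multiset.range N).map (fun i => (⟨{i}, 0⟩ : El))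

lemma seq_irred (N : ℕ) (t : Multiset El) (ht : t < seq N) : t.sum ≠ (seq N).sum := by
  have hnd : (seq N).Nodup := by
    unfold seq
    rw [Multiset.nodup_cons]
    refine ⟨?_, ?_⟩
    · simp
    · apply Multiset.Nodup.map
      · intro i j hij
        simpa using congrArg El.fst hij
      · exact Multiset.nodup_range N
  obtain ⟨x, hx, hxt⟩ : ∃ x ∈ seq N, x ∉ t := by
    by_contra hc
    push Not at hc
    have : seq N ≤ t := (Multiset.le_iff_subset hnd).2 (fun y hy => hc y hy)
    exact absurd (lt_of_lt_of_le ht this) (lt_irrefl _)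
  have hsub : ∀ y ∈ t, y ∈ seq N := fun y hy => Multiset.mem_of_le ht.le hy
  have hcase : x = ⟨∅, 1⟩ ∨ ∃ i < N, x = ⟨{i}, 0⟩ := by
    unfold seq at hx
    rw [Multiset.mem_cons, Multiset.mem_map] at hx
    rcases hx with hx | ⟨i, hi, rfl⟩
    · exact Or.inl hx
    · exact Or.inr ⟨i, Multiset.mem_range.1 hi, rfl⟩
  have hmem : ∀ y ∈ seq N, y = ⟨∅, 1⟩ ∨ ∃ i < N, y = ⟨{i}, 0⟩ := by
    intro y hy
    unfold seq at hy
    rw [Multiset.mem_cons, Multiset.mem_map] at hy
    rcases hy with hy | ⟨i, hi, rfl⟩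
    · exact Or.inl hy
    · exact Or.inr ⟨i, Multiset.mem_range.1 hi, rfl⟩
  intro heq
  rcases hcase with rfl | ⟨i, hi, rfl⟩
  · have h0 : t.sum.lvl = 0 := by
      apply sum_lvl
      intro y hy
      rcases hmem y (hsub y hy) with rfl | ⟨i, _, rfl⟩
      · exact absurd hy hxt
      · rfl
    have h1 : (seq N).sum.lvl = 1 := by
      unfold seq
      rw [Multiset.sum_cons, add_lvl, sum_lvl]
      · decide
      · intro y hy
        rw [Multiset.mem_map] at hy
        obtain ⟨i, _, rfl⟩ := hy
        rfl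
    rw [heq, h1] at h0
    exact absurd h0 (by decide)
  · have h1 : i ∈ (seq N).sum.fst := by
      rw [sum_fst]
      exact ⟨_, hx, by simp⟩
    rw [← heq, sum_fst] at h1
    obtain ⟨y, hy, hiy⟩ := h1
    rcases hmem y (hsub y hy) with rfl | ⟨j, _, rfl⟩
    · simp at hiy
    · simp at hiy
      subst hiy
      exact hxt hy

lemma seq_quot_irred (N : ℕ) :
    Irred ((seq N).map (HCon El).mk') := by
  intro t ht heq
  have h1 : t.map iota < seq N := by
    have h2 : t.map iota ≤ ((seq N).map (HCon El).mk').map iota :=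
      Multiset.map_le_map ht.le
    rw [Multiset.map_map] at h2
    have h3 : (seq N).map (iota ∘ (HCon El).mk') = seq N := by
      conv_rhs => rw [← Multiset.map_id (seq N)]
      rfl
    rw [h3] at h2
    refine lt_of_le_of_ne h2 ?_
    intro h4
    have h5 := congrArg Multiset.card h4
    rw [Multiset.card_map] at h5
    have h6 := Multiset.card_lt_card ht
    rw [Multiset.card_map] at h6
    omega
  apply seq_irred N _ h1
  rw [← map_multiset_sum, heq, map_multiset_sum, Multiset.map_map]
  congr 1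
  conv_rhs => rw [← Multiset.map_id (seq N)]
  rfl

lemma not_group (a : El) (h : a.lvl = 1) : ¬ CycIsGroup a := by
  rintro ⟨e, ⟨n, rfl⟩, he⟩
  have h1 := (he a ⟨0, by simp⟩).1
  have h2 := congrArg El.lvl h1
  have h3 : ((n + 1) • a).lvl ≠ 0 := by
    rcases n with _ | n
    · simp [h]
    · rw [smul_eq, two_nsmul, add_lvl, h]; decide
  simp only [add_lvl, h] at h2
  revert h2 h3
  generalize ((n + 1) • a).lvl = k
  revert k; decide

/-- **Counterexample.** There is a commutative periodic semigroup `S` (even a monoid) with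
`d(S, R) = 1` for every nonzero commutative ring `R`, but
`sup {D_ā (S / H) : ⟨a⟩ is not a group} = ∞`. -/
theorem result :
    ∃ (S : Type) (_ : AddCommMonoid S), Periodic S ∧
      (∀ (R : Type*) [CommRing R] [Nontrivial R], dSR S R = 1) ∧
      (⨆ a ∈ {a : S | ¬ CycIsGroup a}, Dav ((HCon S).mk' a)) = ⊤ := by
  refine ⟨El, inferInstance, periodic, fun R _ _ => dSR_eq R, ?_⟩
  rw [ENat.eq_top_iff_forall_ge]
  intro N
  have hl : (seq N).sum.lvl = 1 := by
    unfold seq
    rw [Multiset.sum_cons, add_lvl, sum_lvl]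
    · decide
    · intro y hy
      rw [Multiset.mem_map] at hy
      obtain ⟨i, _, rfl⟩ := hy
      rfl
  refine le_trans ?_ (le_iSup₂ (f := fun (a : El) (_ : a ∈ {a : El | ¬ CycIsGroup a}) =>
    Dav ((HCon El).mk' a)) (seq N).sum (not_group _ hl))
  unfold Dav
  refine le_trans ?_ (le_iSup₂ (f := fun (s : Multiset (HCon El).Quotient)
    (_ : s ∈ {s : Multiset (HCon El).Quotient | s.sum = (HCon El).mk' (seq N).sum ∧ Irred s}) =>
    (Multiset.card s : ℕ∞)) ((seq N).map (HCon El).mk')
    ⟨by rw [map_multiset_sum], seq_quot_irred N⟩)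
  rw [Multiset.card_map]
  unfold seq
  rw [Multiset.card_cons, Multiset.card_map, Multiset.card_range]
  exact_mod_cast Nat.le_succ N

end Pool.Agent.Results.MP_6ad575_co.UnboundedDavenport
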